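import Pool.Agent.L5helper31.TG.Defs2

/-!
# The rays of `P^1 × P^(n-1)` from the polytope (U1)
-/

set_option autoImplicit false

open Finset

namespace Pool.Agent.L5helper18.TG

open Pool.Agent.L5helper31.TG

variable {n : ℕ}

theorem dneg (l : Fin n → ℤ) (x : Fin n → ℝ) : dot (-l) x = -dot l x := by
  unfold dot
  rw [← Finset.sum_neg_distrib]
  refine Finset.sum_congr rfl fun i _ => ?_
  simp

theorem dsum {ι : Type} (s : Finset ι) (l : ι → Fin n → ℤ) (x : Fin n → ℝ) :
    dot (∑ a ∈ s, l a) x = ∑ a ∈ s, dot (l a) x := by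
  unfold dot
  rw [Finset.sum_comm]
  refine Finset.sum_congr rfl fun i _ => ?_
  rw [Finset.sum_apply]
  push_cast
  rw [Finset.sum_mul]

theorem dsmul (c : ℤ) (l : Fin n → ℤ) (x : Fin n → ℝ) : dot (c • l) x = c * dot l x := by
  unfold dot
  rw [Finset.mul_sum]
  refine Finset.sum_congr rfl fun i _ => ?_
  simp
  ring

theorem exists_point (M : Fin n → (Fin n → ℤ)) (hd : |(Matrix.of M).det| = 1) (y : Fin n → ℝ) :
    ∃ x : Fin n → ℝ, ∀ i, dot (M i) x = y i := by
  set A : Matrix (Fin n) (Fin n) ℝ := (Matrix.of M).map (Int.castRingHom ℝ) with hA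
  have h1 : A.det = (Int.castRingHom ℝ) (Matrix.of M).det := by
    rw [hA]
    exact (RingHom.map_det (Int.castRingHom ℝ) (Matrix.of M)).symm
  have h2 : IsUnit A.det := by
    rw [h1]
    exact (Int.isUnit_iff_abs_eq.2 hd).map _
  refine ⟨A⁻¹.mulVec y, fun i => ?_⟩
  have h3 : A.mulVec (A⁻¹.mulVec y) = y := by
    rw [Matrix.mulVec_mulVec, Matrix.mul_nonsing_inv _ h2, Matrix.one_mulVec]
  exact congrFun h3 i

theorem exists_coeff (M : Fin n → (Fin n → ℤ)) (hd : |(Matrix.of M).det| = 1)
    (l : Fin n → ℤ) : ∃ c : Fin n → ℤ, l = ∑ i, c i • M i := by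
  have h2 : IsUnit (Matrix.of M).det := Int.isUnit_iff_abs_eq.2 hd
  refine ⟨Matrix.vecMul l (Matrix.of M)⁻¹, ?_⟩
  have h3 : Matrix.vecMul (Matrix.vecMul l (Matrix.of M)⁻¹) (Matrix.of M) = l := by
    rw [Matrix.vecMul_vecMul, Matrix.nonsing_inv_mul _ h2, Matrix.vecMul_one]
  have h4 := Matrix.vecMul_eq_sum (Matrix.vecMul l (Matrix.of M)⁻¹) (Matrix.of M)
  rw [h3] at h4
  exact h4

theorem mem_prodP (M : Fin n → (Fin n → ℤ)) (j : Fin n) (x : Fin n → ℝ) :
    x ∈ polytope (prodL M j) ↔ (∀ i, -1 ≤ dot (M i) x) ∧ dot (M j) x ≤ 1 ∧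
      ∑ i ∈ univ.erase j, dot (M i) x ≤ 1 := by
  constructor
  · intro h
    have a1 := h (-M j) (by simp [prodL])
    have a2 := h (-∑ i ∈ univ.erase j, M i) (by simp [prodL])
    rw [dneg] at a1
    rw [dneg, dsum] at a2
    exact ⟨fun i => h (M i) (by simp [prodL]), by linarith, by linarith⟩
  · rintro ⟨h1, h2, h3⟩ l hl
    simp only [prodL, Finset.mem_insert, Finset.mem_image, Finset.mem_univ, true_and] at hl
    rcases hl with rfl | rfl | ⟨i, rfl⟩
    · rw [dneg]
      linarith
    · rw [dneg, dsum]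
      linarith
    · exact h1 i

/-- the values at the points of the polytope -/
theorem val (M : Fin n → (Fin n → ℤ)) (hd : |(Matrix.of M).det| = 1) (j : Fin n)
    (L : Finset (Fin n → ℤ)) (h : polytope L = polytope (prodL M j)) (c : Fin n → ℤ)
    (hl : ∑ i, c i • M i ∈ L) (y : Fin n → ℝ) (h1 : ∀ i, -1 ≤ y i) (h2 : y j ≤ 1)
    (h3 : ∑ i ∈ univ.erase j, y i ≤ 1) : -1 ≤ (c j : ℝ) * y j + ∑ i ∈ univ.erase j, (c i : ℝ) * y i := by
  obtain ⟨x, hx⟩ := exists_point M hd y
  have h4 : x ∈ polytope (prodL M j) := by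
    rw [mem_prodP]
    refine ⟨fun i => by rw [hx]; exact h1 i, by rw [hx]; exact h2, ?_⟩
    rw [Finset.sum_congr rfl fun i _ => hx i]
    exact h3
  rw [← h] at h4
  have h5 := h4 _ hl
  rw [dsum, Finset.sum_congr rfl fun i _ => show dot (c i • M i) x = (c i : ℝ) * y i by
    rw [dsmul, hx], ← Finset.add_sum_erase univ _ (Finset.mem_univ j)] at h5
  exact h5

theorem sub_prod (hn : 2 ≤ n) (M : Fin n → (Fin n → ℤ)) (hd : |(Matrix.of M).det| = 1) (j : Fin n)
    (L : Finset (Fin n → ℤ)) (h0 : (0 : Fin n → ℤ) ∉ L)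
    (h : polytope L = polytope (prodL M j)) (l : Fin n → ℤ) (hl : l ∈ L) : l ∈ prodL M j := by
  obtain ⟨c, hc⟩ := exists_coeff M hd l
  rw [hc] at hl
  have hcard : ((univ.erase j : Finset (Fin n)).card : ℝ) = (n : ℝ) - 1 := by
    rw [Finset.card_erase_of_mem (Finset.mem_univ j), Finset.card_univ, Fintype.card_fin,
      Nat.cast_sub (by omega)]
    simp
  have hnR : (2 : ℝ) ≤ n := by exact_mod_cast hn
  -- the first test points
  have T1 : ∀ e : ℝ, -1 ≤ e → e ≤ 1 →
      -1 ≤ (c j : ℝ) * e - ∑ i ∈ univ.erase j, (c i : ℝ) := by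
    intro e he1 he2
    have h3 : ∀ i ∈ univ.erase j, (fun i : Fin n => if i = j then e else -1) i = -1 := by
      intro i hi
      simp only
      rw [if_neg (Finset.ne_of_mem_erase hi)]
    have h4 := val M hd j L h c hl (fun i => if i = j then e else -1)
      (fun i => by
        split_ifs <;> linarith) (by simp only [if_true]; exact he2)
      (by
        rw [Finset.sum_congr rfl h3, Finset.sum_const, nsmul_eq_mul, hcard]
        linarith)
    simp only [if_true] at h4
    rw [Finset.sum_congr rfl fun i hi => show (c i : ℝ) * (if i = j then e else -1) = -(c i : ℝ) by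
      rw [if_neg (Finset.ne_of_mem_erase hi)]; ring, Finset.sum_neg_distrib] at h4
    linarith
  have T2 : ∀ k, k ≠ j → ∀ e : ℝ, -1 ≤ e → e ≤ 1 →
      -1 ≤ (c j : ℝ) * e - ∑ i ∈ univ.erase j, (c i : ℝ) + n * c k := by
    intro k hk e he1 he2
    have hkm : k ∈ univ.erase j := Finset.mem_erase.2 ⟨hk, Finset.mem_univ k⟩
    have h3 : ∀ i ∈ univ.erase j, (fun i : Fin n => if i = j then e else (-1 + if i = k then (n : ℝ) else 0)) i =
        -1 + if i = k then (n : ℝ) else 0 := by
      intro i hi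
      simp only
      rw [if_neg (Finset.ne_of_mem_erase hi)]
    have h4 := val M hd j L h c hl
      (fun i => if i = j then e else (-1 + if i = k then (n : ℝ) else 0))
      (fun i => by
        split_ifs <;> linarith) (by simp only [if_true]; exact he2)
      (by
        rw [Finset.sum_congr rfl h3, Finset.sum_add_distrib, Finset.sum_const, nsmul_eq_mul, hcard,
          Finset.sum_ite_eq', if_pos hkm]
        linarith)
    simp only [if_true] at h4
    rw [Finset.sum_congr rfl fun i hi => show (c i : ℝ) *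
        (if i = j then e else (-1 + if i = k then (n : ℝ) else 0)) =
        -(c i : ℝ) + if i = k then (n : ℝ) * c i else 0 by
      rw [if_neg (Finset.ne_of_mem_erase hi)]
      split_ifs <;> ring, Finset.sum_add_distrib, Finset.sum_neg_distrib,
      Finset.sum_ite_eq', if_pos hkm] at h4
    linarith
  have hcastS : (∑ i ∈ univ.erase j, (c i : ℝ)) = ((∑ i ∈ univ.erase j, c i : ℤ) : ℝ) := by
    push_cast
    rfl
  set s : ℤ := ∑ i ∈ univ.erase j, c i with hs
  have I1 : c j + s ≤ 1 := by
    have := T1 (-1) le_rfl (by norm_num)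
    rw [hcastS] at this
    have h5 : ((c j + s : ℤ) : ℝ) ≤ (1 : ℤ) := by push_cast; linarith
    exact_mod_cast h5
  have I2 : -c j + s ≤ 1 := by
    have := T1 1 (by norm_num) le_rfl
    rw [hcastS] at this
    have h5 : ((-c j + s : ℤ) : ℝ) ≤ (1 : ℤ) := by push_cast; linarith
    exact_mod_cast h5
  have J1 : ∀ k, k ≠ j → c j + s - n * c k ≤ 1 := by
    intro k hk
    have := T2 k hk (-1) le_rfl (by norm_num)
    rw [hcastS] at this
    have h5 : ((c j + s - n * c k : ℤ) : ℝ) ≤ (1 : ℤ) := by push_cast; linarith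
    exact_mod_cast h5
  have J2 : ∀ k, k ≠ j → -c j + s - n * c k ≤ 1 := by
    intro k hk
    have := T2 k hk 1 (by norm_num) le_rfl
    rw [hcastS] at this
    have h5 : ((-c j + s - n * c k : ℤ) : ℝ) ≤ (1 : ℤ) := by push_cast; linarith
    exact_mod_cast h5
  have hone : ∀ k, (∀ i, i ≠ k → c i = 0) → ∑ i, c i • M i = c k • M k := by
    intro k hk
    refine Finset.sum_eq_single k (fun i _ hi => by rw [hk i hi, zero_smul]) fun h' =>
      absurd (Finset.mem_univ k) h'
  by_cases hall : ∀ k, k ≠ j → 0 ≤ c k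
  · have hnn : ∀ i ∈ univ.erase j, 0 ≤ c i := fun i hi => hall i (Finset.ne_of_mem_erase hi)
    have hs0 : 0 ≤ s := Finset.sum_nonneg hnn
    by_cases hz : ∀ k, k ≠ j → c k = 0
    · have h6 := hone j hz
      rw [hc, h6]
      have h7 : c j = 0 ∨ c j = 1 ∨ c j = -1 := by omega
      rcases h7 with h7 | h7 | h7
      · exfalso
        rw [h6, h7, zero_smul] at hl
        exact h0 hl
      · rw [h7, one_smul]
        simp [prodL]
      · rw [h7, neg_smul, one_smul]
        simp [prodL]
    · push Not at hz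
      obtain ⟨k, hk, hck⟩ := hz
      have hkm : k ∈ univ.erase j := Finset.mem_erase.2 ⟨hk, Finset.mem_univ k⟩
      have h8 : c k + ∑ i ∈ (univ.erase j).erase k, c i = s := Finset.add_sum_erase _ _ hkm
      have h9 : 0 ≤ ∑ i ∈ (univ.erase j).erase k, c i :=
        Finset.sum_nonneg fun i hi => hnn i (Finset.mem_of_mem_erase hi)
      have h10 := hall k hk
      have h11 : 1 ≤ c k := by omega
      have h12 : c k = 1 := by omega
      have h13 : ∑ i ∈ (univ.erase j).erase k, c i = 0 := by omega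
      have h14 : c j = 0 := by omega
      have h15 : ∀ i, i ≠ k → c i = 0 := by
        intro i hi
        by_cases hij : i = j
        · rw [hij]; exact h14
        · exact (Finset.sum_eq_zero_iff_of_nonneg fun i hi =>
            hnn i (Finset.mem_of_mem_erase hi)).1 h13 i
            (Finset.mem_erase.2 ⟨hi, Finset.mem_erase.2 ⟨hij, Finset.mem_univ i⟩⟩)
      rw [hc, hone k h15, h12, one_smul]
      simp [prodL]
  · push Not at hall
    obtain ⟨k₀, hk₀, hck₀⟩ := hall
    have hk₀m : k₀ ∈ univ.erase j := Finset.mem_erase.2 ⟨hk₀, Finset.mem_univ k₀⟩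
    obtain ⟨k, hkm, hmin⟩ := Finset.exists_min_image (univ.erase j) c ⟨k₀, hk₀m⟩
    have hk : k ≠ j := Finset.ne_of_mem_erase hkm
    have hck : c k < 0 := lt_of_le_of_lt (hmin k₀ hk₀m) hck₀
    have hD : ∑ i ∈ univ.erase j, (c i - c k) = s - (n - 1) * c k := by
      rw [Finset.sum_sub_distrib, Finset.sum_const, Finset.card_erase_of_mem (Finset.mem_univ j),
        Finset.card_univ, Fintype.card_fin, nsmul_eq_mul, Nat.cast_sub (by omega), Nat.cast_one]
    have hD0 : 0 ≤ ∑ i ∈ univ.erase j, (c i - c k) :=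
      Finset.sum_nonneg fun i hi => sub_nonneg.2 (hmin i hi)
    have K1 := J1 k hk
    have K2 := J2 k hk
    have e1 : ((n : ℤ) - 1) * c k = n * c k - c k := by ring
    rw [e1] at hD
    have h11 : c k = -1 := by omega
    have h12 : ∑ i ∈ univ.erase j, (c i - c k) = 0 := by omega
    have h14 : c j = 0 := by omega
    have h15 : ∀ i ∈ univ.erase j, c i = -1 := by
      intro i hi
      have := (Finset.sum_eq_zero_iff_of_nonneg fun i hi => sub_nonneg.2 (hmin i hi)).1 h12 i hi
      omega
    rw [hc, ← Finset.add_sum_erase univ _ (Finset.mem_univ j), h14, zero_smul, zero_add,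
      Finset.sum_congr rfl fun i hi => show c i • M i = -M i by rw [h15 i hi, neg_smul, one_smul],
      Finset.sum_neg_distrib]
    simp [prodL]

theorem prod_rays (hn : 2 ≤ n) (M : Fin n → (Fin n → ℤ)) (hd : |(Matrix.of M).det| = 1)
    (j : Fin n) (L : Finset (Fin n → ℤ)) (h0 : (0 : Fin n → ℤ) ∉ L)
    (h : polytope L = polytope (prodL M j)) : L = prodL M j := by
  refine Finset.Subset.antisymm (fun l hl => sub_prod hn M hd j L h0 h l hl) fun v hv => ?_
  by_contra hvL
  -- a point where `v` is too small and the others are fine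
  have main : ∀ y : Fin n → ℝ, (∀ x : Fin n → ℝ, (∀ i, dot (M i) x = y i) → dot v x < -1 ∧
      ∀ l ∈ prodL M j, l ≠ v → -1 ≤ dot l x) → False := by
    intro y hy
    obtain ⟨x, hx⟩ := exists_point M hd y
    obtain ⟨h1, h2⟩ := hy x hx
    have h3 : x ∈ polytope L := fun l hl =>
      h2 l (sub_prod hn M hd j L h0 h l hl) fun e => hvL (e ▸ hl)
    rw [h] at h3
    have := h3 v hv
    linarith
  have hv' := hv
  simp only [prodL, Finset.mem_insert, Finset.mem_image, Finset.mem_univ, true_and] at hv'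
  have dall : ∀ (x y : Fin n → ℝ), (∀ i, dot (M i) x = y i) →
      dot (-M j) x = -y j ∧ dot (-∑ i ∈ univ.erase j, M i) x = -∑ i ∈ univ.erase j, y i := by
    intro x y hx
    refine ⟨by rw [dneg, hx], ?_⟩
    rw [dneg, dsum, Finset.sum_congr rfl fun i _ => hx i]
  rcases hv' with hvv | hvv | ⟨k, hvv⟩
  · -- `v = -M j`
    refine main (fun i => if i = j then 2 else 0) fun x hx => ?_
    obtain ⟨d1, d2⟩ := dall x _ hx
    have hs : ∑ i ∈ univ.erase j, (fun i : Fin n => if i = j then (2 : ℝ) else 0) i = 0 :=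
      Finset.sum_eq_zero fun i hi => by
        rw [if_neg (Finset.ne_of_mem_erase hi)]
    rw [hs] at d2
    simp only [if_true] at d1
    refine ⟨by rw [hvv, d1]; norm_num, fun l hl hlv => ?_⟩
    simp only [prodL, Finset.mem_insert, Finset.mem_image, Finset.mem_univ, true_and] at hl
    rcases hl with rfl | rfl | ⟨i, rfl⟩
    · exact absurd hvv.symm hlv
    · rw [d2]; norm_num
    · rw [hx]
      split_ifs <;> norm_num
  · -- `v = -∑`
    obtain ⟨k, hk⟩ : ∃ k : Fin n, k ≠ j := by
      have : Nontrivial (Fin n) := Fin.nontrivial_iff_two_le.2 hn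
      exact exists_ne j
    have hkm : k ∈ univ.erase j := Finset.mem_erase.2 ⟨hk, Finset.mem_univ k⟩
    refine main (fun i => if i = k then 2 else 0) fun x hx => ?_
    obtain ⟨d1, d2⟩ := dall x _ hx
    rw [Finset.sum_ite_eq', if_pos hkm] at d2
    simp only [if_neg hk.symm] at d1
    refine ⟨by rw [hvv, d2]; norm_num, fun l hl hlv => ?_⟩
    simp only [prodL, Finset.mem_insert, Finset.mem_image, Finset.mem_univ, true_and] at hl
    rcases hl with rfl | rfl | ⟨i, rfl⟩
    · rw [d1]; norm_num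
    · exact absurd hvv.symm hlv
    · rw [hx]
      split_ifs <;> norm_num
  · -- `v = M k`
    refine main (fun i => if i = k then -2 else 0) fun x hx => ?_
    obtain ⟨d1, d2⟩ := dall x _ hx
    refine ⟨by rw [← hvv, hx]; simp, fun l hl hlv => ?_⟩
    simp only [prodL, Finset.mem_insert, Finset.mem_image, Finset.mem_univ, true_and] at hl
    rcases hl with rfl | rfl | ⟨i, rfl⟩
    · rw [d1]
      split_ifs <;> norm_num
    · rw [d2, Finset.sum_ite_eq']
      split_ifs <;> norm_num
    · rw [hx]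
      have : i ≠ k := fun e => hlv (by rw [e]; exact hvv)
      rw [if_neg this]
      norm_num

end Pool.Agent.L5helper18.TG

namespace Pool.Agent.L5helper31.TG

/-- The polytope determines the rays of the fan of `P^1 × P^(n-1)`. -/
theorem prod_rays {n : ℕ} (hn : 2 ≤ n) (M : Fin n → (Fin n → ℤ)) (hd : |(Matrix.of M).det| = 1)
    (j : Fin n) (L : Finset (Fin n → ℤ)) (h0 : (0 : Fin n → ℤ) ∉ L)
    (h : polytope L = polytope (prodL M j)) : L = prodL M j :=
  Pool.Agent.L5helper18.TG.prod_rays hn M hd j L h0 h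

end Pool.Agent.L5helper31.TG
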